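import Pool.Agent.Lib.MP_acafa7_al.MS.Iface3

/-! Lifting walks of `OmG` (MP_acafa7_al, module Lift, helper84). -/

namespace MSG.H84

open Classical

variable {V Γ : Type} [Group Γ] [MulAction Γ V] {X : Cx V}

theorem nr_smul (hG : X.IsGeom Γ) (c : Γ) (x y : V) : Nr X.G (c • x) (c • y) ↔ Nr X.G x y := by
  unfold Nr
  rw [hG.adj, smul_left_cancel_iff]

theorem nr_symm {x y : V} (h : Nr X.G x y) : Nr X.G y x := by
  rcases h with h | h
  · exact Or.inl h.symm
  · exact Or.inr h.symm

theorem omG_adj (hG : X.IsGeom Γ) {g : Γ} {Ω : Set V} {x y : Ω} (h : (OmG X g Ω).Adj x y) :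
    ∃ n : ℤ, Nr X.G x.1 (g ^ n • y.1) := by
  rcases h.2 with h | ⟨n, hn⟩
  · exact h
  · refine ⟨-n, ?_⟩
    have := (nr_smul hG (g ^ (-n)) y.1 (g ^ n • x.1)).2 hn
    rw [smul_smul, ← zpow_add, neg_add_cancel, zpow_zero, one_smul] at this
    exact nr_symm this

theorem omG_of_nr {g : Γ} {Ω : Set V} {x y : Ω} {n : ℤ}
    (h : Nr X.G x.1 (g ^ n • y.1)) : x = y ∨ (OmG X g Ω).Adj x y := by
  by_cases hxy : x = y
  · exact Or.inl hxy
  · exact Or.inr ⟨hxy, Or.inl ⟨n, h⟩⟩

theorem omG_reach {g : Γ} {Ω : Set V} {x y : Ω} {n : ℤ}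
    (h : Nr X.G x.1 (g ^ n • y.1)) : (OmG X g Ω).Reachable x y := by
  rcases omG_of_nr h with h | h
  · rw [h]
  · exact h.reachable

theorem omG_dist {g : Γ} {Ω : Set V} {x y : Ω} {n : ℤ}
    (h : Nr X.G x.1 (g ^ n • y.1)) : (OmG X g Ω).dist x y ≤ 1 := by
  rcases omG_of_nr h with h | h
  · rw [h, SimpleGraph.dist_self]
    exact Nat.zero_le _
  · have := SimpleGraph.dist_le (SimpleGraph.Walk.cons h SimpleGraph.Walk.nil)
    simpa using this

theorem reach_list {g : Γ} {Ω : Set V} (l : List V) : ∀ (x y : V) (hx : x ∈ Ω) (hy : y ∈ Ω),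
    IsW X.G x y l → (∀ z ∈ l, z ∈ Ω) → (OmG X g Ω).Reachable ⟨x, hx⟩ ⟨y, hy⟩ := by
  induction l with
  | nil =>
    intro x y hx hy h _
    have := h.first
    simp at this
  | cons u l ih =>
    intro x y hx hy h hl
    have hu : u = x := by simpa using h.first
    subst hu
    cases l with
    | nil =>
      have : u = y := by simpa using h.last
      subst this
      rfl
    | cons v l =>
      have hc := List.isChain_cons_cons.1 h.chain
      have hv : v ∈ Ω := hl v (by simp)
      have h1 : IsW X.G v y (v :: l) := ⟨hc.2, rfl, by simpa using h.last⟩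
      have h2 := ih v y hv hy h1 (fun z hz => hl z (List.mem_cons_of_mem _ hz))
      have h3 : (OmG X g Ω).Reachable ⟨u, hx⟩ ⟨v, hv⟩ :=
        omG_reach (n := 0) (Or.inr (by simpa using hc.1))
      exact h3.trans h2

theorem gpow_mem {g : Γ} {K' : ℕ} {Ω : Set V} (hΩ : IsOm X g K' Ω) (n : ℤ) {x : V} (hx : x ∈ Ω) :
    g ^ n • x ∈ Ω := hΩ.inv (g ^ n) ((Commute.refl g).zpow_left n).eq x hx

/-- the automorphism of `OmG` given by an element of the centralizer -/
def shiftHom (hG : X.IsGeom Γ) {g : Γ} {K' : ℕ} {Ω : Set V} (hΩ : IsOm X g K' Ω) (c : Γ)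
    (hc : c * g = g * c) : (OmG X g Ω) →g (OmG X g Ω) where
  toFun x := ⟨c • x.1, hΩ.inv c hc x.1 x.2⟩
  map_rel' := by
    intro x y h
    have hcn : ∀ n : ℤ, c * g ^ n = g ^ n * c := fun n => ((show Commute c g from hc).zpow_right n).eq
    refine ⟨?_, ?_⟩
    · intro he
      apply h.1
      have := congrArg Subtype.val he
      exact Subtype.ext (smul_left_cancel c this)
    · rcases h.2 with ⟨n, hn⟩ | ⟨n, hn⟩
      · left
        refine ⟨n, ?_⟩
        have := (nr_smul hG c _ _).2 hn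
        rwa [smul_smul, hcn, ← smul_smul] at this
      · right
        refine ⟨n, ?_⟩
        have := (nr_smul hG c _ _).2 hn
        rwa [smul_smul, hcn, ← smul_smul] at this

theorem ball_fin (hG : X.IsGeom Γ) (hc : X.G.Connected) (x : V) (R : ℕ) :
    {z | X.G.dist x z ≤ R}.Finite := by
  induction R with
  | zero =>
    refine (Set.finite_singleton x).subset ?_
    intro z hz
    have hz' : X.G.dist x z = 0 := by
      have : X.G.dist x z ≤ 0 := hz
      omega
    exact ((hc.dist_eq_zero_iff).1 hz').symm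
  | succ R ih =>
    have : {z | X.G.dist x z ≤ R + 1} ⊆ {z | X.G.dist x z ≤ R} ∪
        ⋃ y ∈ {z | X.G.dist x z ≤ R}, {z | X.G.Adj y z} := by
      intro z hz
      by_cases hzR : X.G.dist x z ≤ R
      · exact Or.inl hzR
      · right
        have hz' : X.G.dist x z ≤ R + 1 := hz
        have hz1 : X.G.dist x z = R + 1 := by omega
        obtain ⟨p, hp⟩ := hc.exists_walk_length_eq_dist x z
        simp only [Set.mem_iUnion]
        have hnn : ¬ p.reverse.Nil := by
          intro hn
          have := SimpleGraph.Walk.length_eq_zero_iff.2 hn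
          rw [SimpleGraph.Walk.length_reverse] at this
          omega
        refine ⟨p.reverse.snd, ?_, ?_⟩
        · have h1 := SimpleGraph.Walk.length_tail_add_one hnn
          rw [SimpleGraph.Walk.length_reverse, hp, hz1] at h1
          have h2 := SimpleGraph.dist_le p.reverse.tail
          have h3 : X.G.dist x p.reverse.snd = X.G.dist p.reverse.snd x := SimpleGraph.dist_comm
          show X.G.dist x p.reverse.snd ≤ R
          omega
        · exact (SimpleGraph.Walk.adj_snd hnn).symm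
    refine Set.Finite.subset ?_ this
    exact ih.union (ih.biUnion (fun y _ => hG.locfin y))

theorem dist_smul_le (hG : X.IsGeom Γ) (hc : X.G.Connected) (c : Γ) (x y : V) :
    X.G.dist (c • x) (c • y) ≤ X.G.dist x y := by
  obtain ⟨p, hp⟩ := hc.exists_walk_length_eq_dist x y
  let f : X.G →g X.G := ⟨fun v => c • v, fun {a b} h => (hG.adj c a b).2 h⟩
  have := SimpleGraph.dist_le (p.map f)
  rw [SimpleGraph.Walk.length_map, hp] at this
  exact this

theorem lift : LiftStatement := by
  intro V X Γ _ _ hG hc g K' Ω hg hΩ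
  have conn : (OmG X g Ω).Connected := by
    have : Nonempty Ω := hΩ.nonempty.to_subtype
    refine ⟨?_⟩
    rintro ⟨x, hx⟩ ⟨y, hy⟩
    obtain ⟨l, hl, hl'⟩ := hΩ.conn x hx y hy
    exact reach_list l x y hx hy hl hl'
  refine ⟨conn, ?_, ?_⟩
  · intro x y q
    induction q with
    | nil =>
      rename_i u
      refine ⟨0, [u.1], ⟨List.isChain_singleton _, rfl, by simp⟩, by simp, ?_, ?_, ?_⟩
      · intro z hz
        rw [List.mem_singleton.1 hz]
        exact u.2
      · intro z hz
        exact ⟨u, by simp, 0, by simp [List.mem_singleton.1 hz]⟩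
      · intro w hw
        have hw' : w = u := by simpa using hw
        exact ⟨0, by simp [hw']⟩
    | cons h q ih =>
      rename_i u v w
      obtain ⟨n, l, hl, hlen, hlΩ, hlz, hlw⟩ := ih
      obtain ⟨m, hm⟩ := omG_adj hG h
      have hmap : IsW X.G (g ^ m • v.1) (g ^ (m + n) • w.1) (l.map (fun z => g ^ m • z)) := by
        refine ⟨?_, ?_, ?_⟩
        · rw [List.isChain_map]
          exact hl.chain.imp (fun a b hab => (hG.adj _ a b).2 hab)
        · rw [List.head?_map, hl.first]; rfl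
        · rw [List.getLast?_map, hl.last, zpow_add, ← smul_smul]; rfl
      have mΩ : ∀ z ∈ l.map (fun z => g ^ m • z), z ∈ Ω := by
        intro z hz
        obtain ⟨z', hz', rfl⟩ := List.mem_map.1 hz
        exact gpow_mem hΩ m (hlΩ z' hz')
      have mz : ∀ z ∈ l.map (fun z => g ^ m • z), ∃ w' ∈ q.support, ∃ i : ℤ, z = g ^ i • w'.1 := by
        intro z hz
        obtain ⟨z', hz', rfl⟩ := List.mem_map.1 hz
        obtain ⟨w', hw', i, rfl⟩ := hlz z' hz'
        exact ⟨w', hw', m + i, by rw [zpow_add, smul_smul]⟩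
      have mw : ∀ w' ∈ q.support, ∃ i : ℤ, g ^ i • w'.1 ∈ l.map (fun z => g ^ m • z) := by
        intro w' hw'
        obtain ⟨i, hi⟩ := hlw w' hw'
        refine ⟨m + i, List.mem_map.2 ⟨_, hi, ?_⟩⟩
        rw [zpow_add, smul_smul]
      rcases hm with hm | hm
      · refine ⟨m + n, l.map (fun z => g ^ m • z), by rw [hm]; exact hmap, ?_, mΩ, ?_, ?_⟩
        · rw [List.length_map, SimpleGraph.Walk.length_cons]
          omega
        · intro z hz
          obtain ⟨w', hw', i, hi⟩ := mz z hz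
          exact ⟨w', by rw [SimpleGraph.Walk.support_cons]; exact List.mem_cons_of_mem _ hw', i, hi⟩
        · intro w' hw'
          rw [SimpleGraph.Walk.support_cons, List.mem_cons] at hw'
          rcases hw' with rfl | hw'
          · refine ⟨0, ?_⟩
            rw [zpow_zero, one_smul, hm]
            exact List.mem_of_mem_head? hmap.first
          · exact mw w' hw'
      · refine ⟨m + n, u.1 :: l.map (fun z => g ^ m • z), ?_, ?_, ?_, ?_, ?_⟩
        · refine ⟨?_, rfl, ?_⟩
          · rw [List.isChain_cons]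
            refine ⟨?_, hmap.chain⟩
            intro z hz
            rw [hmap.first] at hz
            have : z = g ^ m • v.1 := by simpa using hz.symm
            rw [this]
            exact hm
          · have hne : l.map (fun z => g ^ m • z) ≠ [] := by
              intro he
              have := hmap.first
              rw [he] at this
              simp at this
            rw [List.getLast?_cons, hmap.last]
            rfl
        · rw [List.length_cons, List.length_map, SimpleGraph.Walk.length_cons]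
          omega
        · intro z hz
          rcases List.mem_cons.1 hz with rfl | hz
          · exact u.2
          · exact mΩ z hz
        · intro z hz
          rcases List.mem_cons.1 hz with rfl | hz
          · exact ⟨u, by simp, 0, by simp⟩
          · obtain ⟨w', hw', i, hi⟩ := mz z hz
            exact ⟨w', by rw [SimpleGraph.Walk.support_cons]; exact List.mem_cons_of_mem _ hw', i, hi⟩
        · intro w' hw'
          rw [SimpleGraph.Walk.support_cons, List.mem_cons] at hw'
          rcases hw' with rfl | hw'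
          · exact ⟨0, by simp⟩
          · obtain ⟨i, hi⟩ := mw w' hw'
            exact ⟨i, List.mem_cons_of_mem _ hi⟩
  · intro R
    obtain ⟨F, hFΩ, hF⟩ := hΩ.cof
    have fin : {p : Ω × Ω | p.1.1 ∈ F ∧ X.G.dist p.1.1 p.2.1 ≤ R}.Finite := by
      have h1 : {p : V × V | p.1 ∈ F ∧ X.G.dist p.1 p.2 ≤ R}.Finite := by
        have : {p : V × V | p.1 ∈ F ∧ X.G.dist p.1 p.2 ≤ R} ⊆
            ⋃ x ∈ F, ({x} : Set V) ×ˢ {z | X.G.dist x z ≤ R} := by
          rintro ⟨a, b⟩ ⟨ha, hb⟩
          simp only [Set.mem_iUnion]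
          exact ⟨a, ha, rfl, hb⟩
        refine Set.Finite.subset ?_ this
        exact Set.Finite.biUnion (Finset.finite_toSet F) (fun x _ =>
          (Set.finite_singleton x).prod (ball_fin hG hc x R))
      refine Set.Finite.of_finite_image (f := fun p : Ω × Ω => (p.1.1, p.2.1)) (h1.subset ?_) ?_
      · rintro _ ⟨p, hp, rfl⟩
        exact hp
      · rintro ⟨p1, p2⟩ _ ⟨q1, q2⟩ _ h
        simp only [Prod.mk.injEq] at h
        exact Prod.ext (Subtype.ext h.1) (Subtype.ext h.2)
    obtain ⟨B, hB⟩ := (fin.image (fun p => (OmG X g Ω).dist p.1 p.2)).bddAbove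
    refine ⟨B + 1, ?_⟩
    intro x y n hxy
    obtain ⟨c, hcg, x', hx', hx⟩ := hF x.1 x.2
    have hcn : ∀ n : ℤ, c⁻¹ * g ^ n = g ^ n * c⁻¹ := fun n =>
      (((show Commute c g from hcg).inv_left).zpow_right n).eq
    have hcig : c⁻¹ * g = g * c⁻¹ := ((show Commute c g from hcg).inv_left).eq
    have hy' : c⁻¹ • y.1 ∈ Ω := hΩ.inv _ hcig y.1 y.2
    have hx'' : c⁻¹ • x.1 = x' := by rw [← hx, inv_smul_smul]
    have hz : g ^ n • (c⁻¹ • y.1) ∈ Ω := gpow_mem hΩ n hy'
    have d1 : X.G.dist x' (g ^ n • (c⁻¹ • y.1)) ≤ R := by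
      have := dist_smul_le hG hc c⁻¹ x.1 (g ^ n • y.1)
      rw [hx'', smul_smul, hcn, ← smul_smul] at this
      exact this.trans hxy
    have d2 : (OmG X g Ω).dist ⟨x', hFΩ x' hx'⟩ ⟨g ^ n • (c⁻¹ • y.1), hz⟩ ≤ B :=
      hB ⟨(⟨x', hFΩ x' hx'⟩, ⟨g ^ n • (c⁻¹ • y.1), hz⟩), ⟨hx', d1⟩, rfl⟩
    have d3 : (OmG X g Ω).dist ⟨g ^ n • (c⁻¹ • y.1), hz⟩ ⟨c⁻¹ • y.1, hy'⟩ ≤ 1 :=
      omG_dist (n := n) (Or.inl rfl)
    have d4 : (OmG X g Ω).dist ⟨x', hFΩ x' hx'⟩ ⟨c⁻¹ • y.1, hy'⟩ ≤ B + 1 :=
      (conn.dist_triangle).trans (add_le_add d2 d3)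
    obtain ⟨p, hp⟩ := conn.exists_walk_length_eq_dist ⟨x', hFΩ x' hx'⟩ ⟨c⁻¹ • y.1, hy'⟩
    have d5 := SimpleGraph.dist_le (p.map (shiftHom hG hΩ c hcg))
    rw [SimpleGraph.Walk.length_map, hp] at d5
    have e1 : (shiftHom hG hΩ c hcg) ⟨x', hFΩ x' hx'⟩ = x := Subtype.ext hx
    have e2 : (shiftHom hG hΩ c hcg) ⟨c⁻¹ • y.1, hy'⟩ = y := Subtype.ext (smul_inv_smul c y.1)
    rw [e1, e2] at d5
    exact d5.trans d4

end MSG.H84
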