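import Pool.Agent.Lib.MP_acafa7_al.MS.Iface1

/-! Proposition 6.1, the tube lemma (MP_acafa7_al, module Tube, helper84). -/

namespace MSG.H84

open Classical

variable {V : Type}

theorem isW_cons {G : SimpleGraph V} {x y : V} {l : List V} (h : IsW G x y l) :
    ∃ l₀, l = x :: l₀ := List.head?_eq_some_iff.1 h.first

theorem isW_snoc {G : SimpleGraph V} {x y : V} {l : List V} (h : IsW G x y l) :
    ∃ l₀, l = l₀ ++ [y] := List.getLast?_eq_some_iff.1 h.last

theorem isW_ne {G : SimpleGraph V} {x y : V} {l : List V} (h : IsW G x y l) : l ≠ [] := by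
  obtain ⟨l₀, rfl⟩ := isW_cons h
  simp

theorem isW_cat {G : SimpleGraph V} {x y z : V} {l m : List V} (hl : IsW G x y l)
    (hm : IsW G y z m) : IsW G x z (cat l m) := by
  obtain ⟨l₀, rfl⟩ := isW_snoc hl
  obtain ⟨m₀, rfl⟩ := isW_cons hm
  have h1 : cat (l₀ ++ [y]) (y :: m₀) = l₀ ++ y :: m₀ := by simp [cat]
  rw [h1]
  refine ⟨?_, ?_, ?_⟩
  · have c1 := hl.chain
    have c2 := hm.chain
    rw [List.isChain_append] at c1 ⊢
    refine ⟨c1.1, c2, ?_⟩
    intro u hu v hv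
    have hv' : v = y := by simpa using hv.symm
    subst hv'
    exact c1.2.2 u hu v (by simp)
  · have := hl.first
    cases l₀ with
    | nil => simpa using this
    | cons u l => simpa using this
  · have := hm.last
    rw [List.getLast?_append, this]
    rfl

theorem isW_reverse {G : SimpleGraph V} {x y : V} {l : List V} (hl : IsW G x y l) :
    IsW G y x l.reverse := by
  refine ⟨?_, ?_, ?_⟩
  · have := hl.chain
    rw [List.isChain_reverse]
    exact this.imp (fun u v h => h.symm)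
  · rw [List.head?_reverse]; exact hl.last
  · rw [List.getLast?_reverse]; exact hl.first

theorem isW_map {G : SimpleGraph V} {b : Equiv.Perm V} (hb : ∀ x y, G.Adj (b x) (b y) ↔ G.Adj x y)
    {x y : V} {l : List V} (hl : IsW G x y l) : IsW G (b x) (b y) (l.map b) := by
  refine ⟨?_, ?_, ?_⟩
  · rw [List.isChain_map]
    exact hl.chain.imp (fun u v h => (hb u v).2 h)
  · rw [List.head?_map, hl.first]; rfl
  · rw [List.getLast?_map, hl.last]; rfl

theorem cat_assoc {l m n : List V} (hm : m ≠ []) : cat (cat l m) n = cat l (cat m n) := by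
  obtain ⟨x, m, rfl⟩ := List.exists_cons_of_ne_nil hm
  simp [cat]

theorem mem_cat {l m : List V} {v : V} (h : v ∈ cat l m) : v ∈ l ∨ v ∈ m := by
  rcases List.mem_append.1 h with h | h
  · exact Or.inl h
  · exact Or.inr (List.mem_of_mem_tail h)

theorem map_cat (b : Equiv.Perm V) (l m : List V) : (cat l m).map b = cat (l.map b) (m.map b) := by
  simp [cat, List.map_tail]

/-- sums over edges -/
theorem sumE_app (η : V → V → ZMod 2) (l : List V) (y : V) (m : List V) :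
    sumE η (l ++ y :: m) = sumE η (l ++ [y]) + sumE η (y :: m) := by
  induction l with
  | nil => simp [sumE]
  | cons x l ih =>
    cases l with
    | nil => simp [sumE]
    | cons z l =>
      have h1 : sumE η (x :: z :: l ++ y :: m) = η x z + sumE η (z :: l ++ y :: m) := rfl
      have h2 : sumE η (x :: z :: l ++ [y]) = η x z + sumE η (z :: l ++ [y]) := rfl
      rw [h1, h2, ih, add_assoc]

theorem sumE_cat {G : SimpleGraph V} (η : V → V → ZMod 2) {x y z : V} {l m : List V}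
    (hl : IsW G x y l) (hm : IsW G y z m) : sumE η (cat l m) = sumE η l + sumE η m := by
  obtain ⟨l₀, rfl⟩ := isW_snoc hl
  obtain ⟨m₀, rfl⟩ := isW_cons hm
  have h1 : cat (l₀ ++ [y]) (y :: m₀) = l₀ ++ y :: m₀ := by simp [cat]
  rw [h1, sumE_app]

theorem sumE_reverse (η : V → V → ZMod 2) (hη : ∀ x y, η x y = η y x) (l : List V) :
    sumE η l.reverse = sumE η l := by
  induction l with
  | nil => rfl
  | cons x l ih =>
    cases l with
    | nil => rfl
    | cons y l =>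
      have h1 : (x :: y :: l).reverse = l.reverse ++ y :: [x] := by simp
      have h2 : (y :: l).reverse = l.reverse ++ [y] := by simp
      have h3 : sumE η (x :: y :: l) = η x y + sumE η (y :: l) := rfl
      rw [h1, sumE_app, ← h2, ih, h3]
      simp only [sumE]
      rw [hη y x]
      ring

theorem sumE_congr (η η' : V → V → ZMod 2) (l : List V)
    (h : ∀ x ∈ l, ∀ y ∈ l, η x y = η' x y) : sumE η l = sumE η' l := by
  induction l with
  | nil => rfl
  | cons x l ih =>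
    cases l with
    | nil => rfl
    | cons y l =>
      have h3 : sumE η (x :: y :: l) = η x y + sumE η (y :: l) := rfl
      have h4 : sumE η' (x :: y :: l) = η' x y + sumE η' (y :: l) := rfl
      rw [h3, h4, ih (fun u hu v hv => h u (List.mem_cons_of_mem _ hu) v (List.mem_cons_of_mem _ hv)),
        h x (by simp) y (by simp)]

theorem sumE_zero (l : List V) : sumE (fun _ _ => (0 : ZMod 2)) l = 0 := by
  induction l with
  | nil => rfl
  | cons x l ih =>
    cases l with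
    | nil => rfl
    | cons y l =>
      have h3 : sumE (fun _ _ => (0 : ZMod 2)) (x :: y :: l) =
        0 + sumE (fun _ _ => (0 : ZMod 2)) (y :: l) := rfl
      rw [h3, ih, add_zero]

theorem sumE_map (η : V → V → ZMod 2) (b : V → V) (hb : ∀ x y, η (b x) (b y) = η x y)
    (l : List V) : sumE η (l.map b) = sumE η l := by
  induction l with
  | nil => rfl
  | cons x l ih =>
    cases l with
    | nil => rfl
    | cons y l =>
      have h3 : sumE η ((x :: y :: l).map b) = η (b x) (b y) + sumE η ((y :: l).map b) := rfl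
      have h4 : sumE η (x :: y :: l) = η x y + sumE η (y :: l) := rfl
      rw [h3, h4, ih, hb]

/-- homotopies and concatenation -/
theorem hom_catL (hA : HomAStatement) {G : SimpleGraph V} {Y : Set V} {ω : V → V → V → ZMod 2}
    {l l' : List V} (m : List V) {e : ZMod 2} (h : Hom G Y ω l l' e) :
    Hom G Y ω (cat l m) (cat l' m) e := by
  have := (hA V G Y ω).2.1 [] m.tail l l' e h
  simpa [cat] using this

theorem hom_catR (hA : HomAStatement) {G : SimpleGraph V} {Y : Set V} {ω : V → V → V → ZMod 2}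
    {x y z : V} {l m m' : List V} {e : ZMod 2} (hl : IsW G x y l) (hm : IsW G y z m)
    (h : Hom G Y ω m m' e) : Hom G Y ω (cat l m) (cat l m') e := by
  have hm' : IsW G y z m' := (hA V G Y ω).2.2.2.2.2.1 m m' e y z h hm
  obtain ⟨l₀, rfl⟩ := isW_snoc hl
  obtain ⟨m₀, rfl⟩ := isW_cons hm
  obtain ⟨m₁, rfl⟩ := isW_cons hm'
  have := (hA V G Y ω).2.1 l₀ [] _ _ e h
  simpa [cat] using this

theorem hom_inv (hA : HomAStatement) {G : SimpleGraph V} {Y : Set V} {ω : V → V → V → ZMod 2}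
    {x y : V} {l : List V} (hl : IsW G x y l) (hY : ∀ z ∈ l, z ∈ Y) :
    Hom G Y ω (cat l l.reverse) [x] 0 := (hA V G Y ω).2.2.2.2.2.2.2.2.1 l x y hl hY

theorem hom_inv' (hA : HomAStatement) {G : SimpleGraph V} {Y : Set V} {ω : V → V → V → ZMod 2}
    {x y : V} {l : List V} (hl : IsW G x y l) (hY : ∀ z ∈ l, z ∈ Y) :
    Hom G Y ω (cat l.reverse l) [y] 0 := by
  have := hom_inv (ω := ω) hA (isW_reverse hl) (fun z hz => hY z (List.mem_reverse.1 hz))
  rwa [List.reverse_reverse] at this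

theorem cat_single {y : V} {l : List V} : cat l [y] = l := by simp [cat]

theorem single_cat {G : SimpleGraph V} {x y : V} {l : List V} (hl : IsW G x y l) :
    cat [x] l = l := by
  obtain ⟨l₀, rfl⟩ := isW_cons hl
  simp [cat]

/-- the annulus step -/
theorem hom_step (hA : HomAStatement) {G : SimpleGraph V} {Y : Set V} {ω : V → V → V → ZMod 2}
    {x x' : V} {p q σ : List V} {e₁ e₂ : ZMod 2} (hp : IsW G x x p) (hq : IsW G x' x' q)
    (hσ : IsW G x x' σ) (pY : ∀ z ∈ p, z ∈ Y) (qY : ∀ z ∈ q, z ∈ Y) (σY : ∀ z ∈ σ, z ∈ Y)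
    (h1 : Hom G Y ω (cat (cat (cat p σ) q.reverse) σ.reverse) [x] e₁)
    (h2 : Hom G Y ω q [x'] e₂) : Hom G Y ω p [x] (e₁ + e₂) := by
  obtain ⟨hT, hC, hR, -⟩ := hA V G Y ω
  have hσr := isW_reverse hσ
  have hqr := isW_reverse hq
  have hpσ := isW_cat hp hσ
  have hc : IsW G x x (cat (cat σ q) σ.reverse) := isW_cat (isW_cat hσ hq) hσr
  -- (1)
  have s1 : Hom G Y ω (cat (cat σ q) σ.reverse) [x] e₂ := by
    have t1 := hom_catR hA hσ hq h2
    rw [cat_single] at t1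
    have t2 := hom_catL hA σ.reverse t1
    have t3 := hT _ _ _ _ _ t2 (hom_inv hA hσ σY)
    rwa [add_zero] at t3
  -- (2)
  have s2 : Hom G Y ω (cat (cat (cat (cat p σ) q.reverse) σ.reverse) (cat (cat σ q) σ.reverse)) [x]
      (e₁ + e₂) := by
    have t1 := hom_catL hA (cat (cat σ q) σ.reverse) h1
    rw [single_cat hc] at t1
    exact hT _ _ _ _ _ t1 s1
  -- (3)
  have s3 : Hom G Y ω (cat (cat (cat (cat p σ) q.reverse) σ.reverse) (cat (cat σ q) σ.reverse)) p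
      0 := by
    have ne1 := isW_ne hσ
    have ne2 := isW_ne hσr
    have ne3 := isW_ne hq
    have ne4 := isW_ne hqr
    have e1 : cat (cat (cat (cat p σ) q.reverse) σ.reverse) (cat (cat σ q) σ.reverse) =
        cat (cat (cat p σ) q.reverse) (cat (cat σ.reverse σ) (cat q σ.reverse)) := by
      rw [cat_assoc (l := cat (cat p σ) q.reverse) (m := σ.reverse) ne2,
        cat_assoc (l := σ) (m := q) ne3, cat_assoc (l := σ.reverse) (m := σ) ne1]
    rw [e1]
    have t1 : Hom G Y ω (cat (cat (cat p σ) q.reverse) (cat (cat σ.reverse σ) (cat q σ.reverse)))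
        (cat (cat (cat p σ) q.reverse) (cat q σ.reverse)) 0 := by
      have u1 := hom_catL hA (cat q σ.reverse) (hom_inv' (ω := ω) hA hσ σY)
      rw [single_cat (isW_cat hq hσr)] at u1
      exact hom_catR hA (isW_cat hpσ hqr) (isW_cat (isW_cat hσr hσ) (isW_cat hq hσr)) u1
    have e2 : cat (cat (cat p σ) q.reverse) (cat q σ.reverse) =
        cat (cat p σ) (cat (cat q.reverse q) σ.reverse) := by
      rw [cat_assoc (l := cat p σ) (m := q.reverse) ne4, cat_assoc (l := q.reverse) (m := q) ne3]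
    rw [e2] at t1
    have t2 : Hom G Y ω (cat (cat p σ) (cat (cat q.reverse q) σ.reverse))
        (cat (cat p σ) σ.reverse) 0 := by
      have u1 := hom_catL hA σ.reverse (hom_inv' (ω := ω) hA hq qY)
      rw [single_cat hσr] at u1
      exact hom_catR hA hpσ (isW_cat (isW_cat hqr hq) hσr) u1
    have e3 : cat (cat p σ) σ.reverse = cat p (cat σ σ.reverse) := cat_assoc ne1
    have t2' : Hom G Y ω (cat (cat p σ) (cat (cat q.reverse q) σ.reverse))
        (cat p (cat σ σ.reverse)) 0 := by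
      rw [← e3]
      exact t2
    have t3 : Hom G Y ω (cat p (cat σ σ.reverse)) p 0 := by
      have u1 := hom_catR hA hp (isW_cat hσ hσr) (hom_inv (ω := ω) hA hσ σY)
      rwa [cat_single] at u1
    have t4 := hT _ _ _ _ _ t1 (hT _ _ _ _ _ t2' t3)
    simpa using t4
  have inY : ∀ z ∈ cat (cat (cat (cat p σ) q.reverse) σ.reverse) (cat (cat σ q) σ.reverse),
      z ∈ Y := by
    intro z hz
    have rv : ∀ l : List V, (∀ z ∈ l, z ∈ Y) → ∀ z ∈ l.reverse, z ∈ Y := fun l h z hz =>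
      h z (List.mem_reverse.1 hz)
    have ct : ∀ l m : List V, (∀ z ∈ l, z ∈ Y) → (∀ z ∈ m, z ∈ Y) → ∀ z ∈ cat l m, z ∈ Y :=
      fun l m h h' z hz => (mem_cat hz).elim (h z) (h' z)
    exact ct _ _ (ct _ _ (ct _ _ (ct _ _ pY σY) (rv _ qY)) (rv _ σY)) (ct _ _ (ct _ _ σY qY) (rv _ σY))
      z hz
  have s4 := (hR _ _ _ inY s3).2
  have s5 := hT _ _ _ _ _ s4 s2
  rwa [zero_add] at s5

/-- invariance of the set `T S` -/
theorem orb_inv (a : Equiv.Perm V) (S : Set V) (k : ℤ) (x : V) :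
    (∃ n : ℤ, (a ^ n) ((a ^ k) x) ∈ S) ↔ ∃ n : ℤ, (a ^ n) x ∈ S := by
  constructor
  · rintro ⟨n, hn⟩
    refine ⟨n + k, ?_⟩
    rw [zpow_add, Equiv.Perm.mul_apply]
    exact hn
  · rintro ⟨n, hn⟩
    refine ⟨n - k, ?_⟩
    rw [← Equiv.Perm.mul_apply, ← zpow_add, sub_add_cancel]
    exact hn

theorem zadj {G : SimpleGraph V} {a : Equiv.Perm V} (ha : ∀ x y, G.Adj (a x) (a y) ↔ G.Adj x y)
    (k : ℤ) (x y : V) : G.Adj ((a ^ k) x) ((a ^ k) y) ↔ G.Adj x y := by
  have hn : ∀ (n : ℕ) (x y : V), G.Adj ((a ^ n) x) ((a ^ n) y) ↔ G.Adj x y := by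
    intro n
    induction n with
    | zero => intro x y; simp
    | succ n ih =>
      intro x y
      rw [pow_succ, Equiv.Perm.mul_apply, Equiv.Perm.mul_apply, ih, ha]
  rcases Int.eq_nat_or_neg k with ⟨n, rfl | rfl⟩
  · rw [zpow_natCast]
    exact hn n x y
  · have h := hn n ((a ^ (-(n : ℤ))) x) ((a ^ (-(n : ℤ))) y)
    rw [← zpow_natCast, ← Equiv.Perm.mul_apply, ← Equiv.Perm.mul_apply, ← zpow_add,
      add_neg_cancel, zpow_zero, Equiv.Perm.one_apply, Equiv.Perm.one_apply] at h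
    exact h.symm

theorem ht_pow {a : Equiv.Perm V} {S : Set V} {ht : V → ℤ}
    (hta : ∀ x, (∃ n : ℤ, (a ^ n) x ∈ S) → ht (a x) = ht x + 1) (k : ℤ) (x : V)
    (hx : ∃ n : ℤ, (a ^ n) x ∈ S) : ht ((a ^ k) x) = ht x + k := by
  have hn : ∀ (n : ℕ) (x : V), (∃ n : ℤ, (a ^ n) x ∈ S) → ht ((a ^ (n : ℤ)) x) = ht x + n := by
    intro n
    induction n with
    | zero => intro x _; simp
    | succ n ih =>
      intro x hx
      have e1 : (a ^ ((n + 1 : ℕ) : ℤ)) x = a ((a ^ (n : ℤ)) x) := by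
        rw [← Equiv.Perm.mul_apply, Nat.cast_succ, add_comm, zpow_add, zpow_one]
      rw [e1, hta _ ((orb_inv a S n x).2 hx), ih x hx]
      push_cast
      ring
  rcases Int.eq_nat_or_neg k with ⟨n, rfl | rfl⟩
  · exact hn n x hx
  · have h := hn n ((a ^ (-(n : ℤ))) x) ((orb_inv a S _ x).2 hx)
    rw [← Equiv.Perm.mul_apply, ← zpow_add, add_neg_cancel, zpow_zero, Equiv.Perm.one_apply] at h
    rw [h]
    ring

theorem nul_mono (hA : HomAStatement) {G : SimpleGraph V} {S S' : Set V} (h : S ⊆ S')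
    {l : List V} (hl : Nul G S l) : Nul G S' l := by
  obtain ⟨h1, x, h2, h3⟩ := hl
  exact ⟨fun v hv => h (h1 v hv), x, h2, (hA V G S _).2.2.2.2.1 _ _ _ S' h h3⟩

theorem mem_sq {a : V → V} {π s s' : List V} {v : V} (h : v ∈ π) : v ∈ sq a π s s' := by
  simp only [sq, cat]
  simp [h]

theorem mem_sq' {G : SimpleGraph V} {a : V → V} {x : V} {π s s' : List V} {v : V}
    (hs : IsW G x (a x) s) (h : v ∈ s) : v = a x ∨ v ∈ sq a π s s' := by
  obtain ⟨t, rfl⟩ := isW_snoc hs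
  rcases List.mem_append.1 h with h | h
  · right
    simp only [sq, cat]
    exact List.mem_append_right _ (by simpa using h)
  · left
    simpa using h

theorem nr_zpow {G : SimpleGraph V} {a : Equiv.Perm V} (ha : ∀ x y, G.Adj (a x) (a y) ↔ G.Adj x y)
    (k : ℤ) (x y : V) : Nr G ((a ^ k) x) ((a ^ k) y) ↔ Nr G x y := by
  unfold Nr
  rw [zadj ha, (a ^ k).injective.eq_iff]

theorem theta_zpow (a : Equiv.Perm V) (S₀ S₁ S₂ : Set V) (k : ℤ) (x y : V) :
    theta {x | ∃ n : ℤ, (a ^ n) x ∈ S₀} {x | ∃ n : ℤ, (a ^ n) x ∈ S₁} {x | ∃ n : ℤ, (a ^ n) x ∈ S₂}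
      ((a ^ k) x) ((a ^ k) y) =
    theta {x | ∃ n : ℤ, (a ^ n) x ∈ S₀} {x | ∃ n : ℤ, (a ^ n) x ∈ S₁}
      {x | ∃ n : ℤ, (a ^ n) x ∈ S₂} x y := by
  simp only [theta, lam, Set.mem_union, Set.mem_ofPred_eq, orb_inv]

theorem tube (h1 : SphStatement) (h2 : ScStatement) (h3 : HomAStatement) (h4 : HomBStatement)
    (h5 : TubeWStatement) (h6 : TubePStatement) (h7 : HtStatement) : TubeStatement := by
  intro V X a hMS hF hloc S₀ S₁ S₂ hS₀ hS₁ hS₂ y₀ y₁ y₂ π₀ π₁ π₂ s₀ s₁ s₂ hπ₀ hπ₁ hπ₂ hs₀ hs₁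
    hs₂ n₀ n₁ n₂
  by_contra hno
  obtain ⟨L₀, hL₀⟩ : ∃ L₀ : Set V, L₀ = {x | ∃ n : ℤ, (a ^ n) x ∈ S₀} := ⟨_, rfl⟩
  obtain ⟨L₁, hL₁⟩ : ∃ L₁ : Set V, L₁ = {x | ∃ n : ℤ, (a ^ n) x ∈ S₁} := ⟨_, rfl⟩
  obtain ⟨L₂, hL₂⟩ : ∃ L₂ : Set V, L₂ = {x | ∃ n : ℤ, (a ^ n) x ∈ S₂} := ⟨_, rfl⟩
  have hNT : NoTriple X.G L₀ L₁ L₂ := by
    rintro ⟨u, hu, v, hv, w, hw, k1, k2, k3⟩
    rw [hL₀] at hu
    rw [hL₁] at hv
    rw [hL₂] at hw
    exact hno ⟨u, v, w, hu, hv, hw, k1, k2, k3⟩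
  obtain ⟨tsym, ttri, tpar⟩ := h6 V X.G L₀ L₁ L₂ hNT
  have tinv : ∀ (k : ℤ) (x y : V), theta L₀ L₁ L₂ ((a ^ k) x) ((a ^ k) y) =
      theta L₀ L₁ L₂ x y := by
    intro k x y
    rw [hL₀, hL₁, hL₂]
    exact theta_zpow a S₀ S₁ S₂ k x y
  -- the set `L`
  obtain ⟨S, hS⟩ : ∃ S : Set V, S = S₀ ∪ S₁ ∪ S₂ := ⟨_, rfl⟩
  have Sfin : S.Finite := by
    rw [hS]
    exact (hS₀.union hS₁).union hS₂
  obtain ⟨L, hL⟩ : ∃ L : Set V, L = {x | ∃ n : ℤ, (a ^ n) x ∈ S} := ⟨_, rfl⟩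
  have memL : ∀ x, x ∈ L ↔ ∃ n : ℤ, (a ^ n) x ∈ S := by
    intro x
    rw [hL]
    rfl
  have hLL : L₀ ∪ L₁ ∪ L₂ = L := by
    ext x
    rw [hL₀, hL₁, hL₂, hL, hS]
    simp only [Set.mem_union, Set.mem_ofPred_eq]
    constructor
    · rintro ((⟨n, h⟩ | ⟨n, h⟩) | ⟨n, h⟩)
      · exact ⟨n, Or.inl (Or.inl h)⟩
      · exact ⟨n, Or.inl (Or.inr h)⟩
      · exact ⟨n, Or.inr h⟩
    · rintro ⟨n, (h | h) | h⟩
      · exact Or.inl (Or.inl ⟨n, h⟩)
      · exact Or.inl (Or.inr ⟨n, h⟩)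
      · exact Or.inr ⟨n, h⟩
  have Linv : ∀ (k : ℤ) (x : V), (a ^ k) x ∈ L ↔ x ∈ L := by
    intro k x
    rw [memL, memL]
    exact orb_inv a S k x
  have SL : ∀ x ∈ S, x ∈ L := fun x hx => (memL x).2 ⟨0, by simpa using hx⟩
  have S0L : S₀ ⊆ L := fun x hx => SL x (by rw [hS]; exact Or.inl (Or.inl hx))
  have S1L : S₁ ⊆ L := fun x hx => SL x (by rw [hS]; exact Or.inl (Or.inr hx))
  have S2L : S₂ ⊆ L := fun x hx => SL x (by rw [hS]; exact Or.inr hx)
  obtain ⟨ht, H, hH, hta, htH⟩ := h7 V X a hF hloc S Sfin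
  have htp : ∀ (k : ℤ) (x : V), x ∈ L → ht ((a ^ k) x) = ht x + k := fun k x hx =>
    ht_pow hta k x ((memL x).1 hx)
  have htL : ∀ x y, x ∈ L → y ∈ L → Nr X.G x y → |ht x - ht y| ≤ H := fun x y hx hy h =>
    htH x y ((memL x).1 hx) ((memL y).1 hy) h
  have aadj := hF.adj
  -- the walk `m`
  obtain ⟨m, hm⟩ : ∃ m : List V, m = cat (cat π₀ π₁) π₂ := ⟨_, rfl⟩
  have mW : IsW X.G y₀ y₀ m := by
    rw [hm]
    exact isW_cat (isW_cat hπ₀ hπ₁) hπ₂
  have π₀L : ∀ v ∈ π₀, v ∈ S₀ := fun v hv => n₀.1 v (mem_sq hv)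
  have π₁L : ∀ v ∈ π₁, v ∈ S₁ := fun v hv => n₁.1 v (mem_sq hv)
  have π₂L : ∀ v ∈ π₂, v ∈ S₂ := fun v hv => n₂.1 v (mem_sq hv)
  have mL : ∀ v ∈ m, v ∈ L := by
    intro v hv
    rw [hm] at hv
    rcases mem_cat hv with hv | hv
    · rcases mem_cat hv with hv | hv
      · exact S0L (π₀L v hv)
      · exact S1L (π₁L v hv)
    · exact S2L (π₂L v hv)
  have y₀L : y₀ ∈ L := by
    obtain ⟨m₀, hm₀⟩ := isW_cons mW
    exact mL y₀ (by rw [hm₀]; simp)
  have sL : ∀ v ∈ s₀, v ∈ L := by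
    intro v hv
    rcases mem_sq' (π := π₀) (s' := s₁) hs₀ hv with h | h
    · rw [h]
      have := (Linv 1 y₀).2 y₀L
      rwa [zpow_one] at this
    · exact S0L (n₀.1 v h)
  have hsq : Nul X.G L (sq a m s₀ s₀) := by
    have t1 := (h4 V X.G a aadj L y₀ y₁ y₂ π₀ π₁ s₀ s₁ s₂ hπ₀ hπ₁ hs₀ hs₁ hs₂).1
      (nul_mono h3 S0L n₀) (nul_mono h3 S1L n₁)
    have t2 := (h4 V X.G a aadj L y₀ y₂ y₀ (cat π₀ π₁) π₂ s₀ s₂ s₀ (isW_cat hπ₀ hπ₁) hπ₂ hs₀ hs₂
      hs₀).1 t1 (nul_mono h3 S2L n₂)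
    rw [hm]
    exact t2
  -- the finite set `N`
  obtain ⟨e0, he0⟩ := h2 V X.G hMS.sc y₀ m (fun _ _ _ => 0) mW
  obtain ⟨N, -, mN, hN⟩ := (h3 V X.G Set.univ _).2.2.2.2.2.2.2.1 m [y₀] e0 he0
  obtain ⟨H₁, hH₁0, hH₁⟩ : ∃ H₁ : ℤ, 0 ≤ H₁ ∧ ∀ y ∈ L, ∀ n ∈ N, Nr X.G n y → |ht y| ≤ H₁ := by
    have hP : {y | ∃ n ∈ N, Nr X.G n y}.Finite := by
      have : {y | ∃ n ∈ N, Nr X.G n y} ⊆ ⋃ n ∈ N, ({n} ∪ {y | X.G.Adj n y}) := by
        rintro y ⟨n, hn, h⟩
        simp only [Set.mem_iUnion]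
        refine ⟨n, hn, ?_⟩
        rcases h with h | h
        · exact Or.inl h.symm
        · exact Or.inr h
      refine Set.Finite.subset ?_ this
      exact Set.Finite.biUnion (Finset.finite_toSet N) (fun n _ =>
        (Set.finite_singleton n).union (hloc n))
    obtain ⟨B, hB⟩ := (hP.image (fun y => |ht y|)).bddAbove
    refine ⟨max B 0, le_max_right _ _, ?_⟩
    intro y _ n hn h
    exact le_trans (hB ⟨y, ⟨n, hn, h⟩, rfl⟩) (le_max_left _ _)
  obtain ⟨M, hM⟩ : ∃ M : ℕ, H₁ + 2 * H < (M : ℤ) := by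
    refine ⟨(H₁ + 2 * H + 1).toNat, ?_⟩
    have := Int.self_le_toNat (H₁ + 2 * H + 1)
    omega
  -- key estimate
  have key : ∀ (k : ℤ), (k = M ∨ k = -M) → ∀ n ∈ N, ∀ z ∈ L, Nr X.G ((a ^ k) n) z →
      2 * H < |ht z| := by
    intro k hk n hn z hz h
    have h' : Nr X.G n ((a ^ (-k)) z) := by
      have := (nr_zpow aadj (-k) ((a ^ k) n) z).2 h
      rwa [← Equiv.Perm.mul_apply, ← zpow_add, neg_add_cancel, zpow_zero,
        Equiv.Perm.one_apply] at this
    have hb := hH₁ _ ((Linv (-k) z).2 hz) n hn h'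
    rw [htp (-k) z hz] at hb
    rw [abs_le] at hb
    rw [lt_abs]
    rcases hk with rfl | rfl
    · left; omega
    · right; omega
  -- the functions `η`, `ω`
  obtain ⟨η, hη⟩ : ∃ η : V → V → ZMod 2, η = fun x y =>
    if ht x < 0 ∧ ht y < 0 then theta L₀ L₁ L₂ x y else 0 := ⟨_, rfl⟩
  have ηsym : ∀ x y, η x y = η y x := by
    intro x y
    rw [hη]
    simp only
    rw [tsym x y]
    simp only [and_comm]
  obtain ⟨ω, hω⟩ : ∃ ω : V → V → V → ZMod 2, ω = fun x y z =>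
    if (x ∈ L ∧ y ∈ L ∧ z ∈ L) ∧ |ht x| ≤ 2 * H ∧ |ht y| ≤ 2 * H ∧ |ht z| ≤ 2 * H then
      η x y + η y z + η x z else 0 := ⟨_, rfl⟩
  have ω12 : ∀ x y z, ω y x z = ω x y z := by
    intro x y z
    rw [hω]
    simp only
    rw [ηsym y x]
    by_cases h : (x ∈ L ∧ y ∈ L ∧ z ∈ L) ∧ |ht x| ≤ 2 * H ∧ |ht y| ≤ 2 * H ∧ |ht z| ≤ 2 * H
    · rw [if_pos h, if_pos (by tauto)]
      ring
    · rw [if_neg h, if_neg (by tauto)]
  have ω23 : ∀ x y z, ω x z y = ω x y z := by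
    intro x y z
    rw [hω]
    simp only
    rw [ηsym z y]
    by_cases h : (x ∈ L ∧ y ∈ L ∧ z ∈ L) ∧ |ht x| ≤ 2 * H ∧ |ht y| ≤ 2 * H ∧ |ht z| ≤ 2 * H
    · rw [if_pos h, if_pos (by tauto)]
      ring
    · rw [if_neg h, if_neg (by tauto)]
  have ωz : ∀ x y z, ¬ (x ∈ L ∧ y ∈ L ∧ z ∈ L) → ω x y z = 0 := by
    intro x y z h
    rw [hω]
    simp only
    rw [if_neg (fun h' => h h'.1)]
  have ωz' : ∀ x y z, 2 * H < |ht x| → ω x y z = 0 := by
    intro x y z h
    rw [hω]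
    simp only
    rw [if_neg (fun h' => absurd h'.2.1 (not_le.2 h))]
  have ωL : ∀ x y z, x ∈ L → y ∈ L → z ∈ L → X.G.Adj x y → X.G.Adj y z → X.G.Adj x z →
      ω x y z = η x y + η y z + η x z := by
    intro x y z hx hy hz hxy hyz hxz
    by_cases h : |ht x| ≤ 2 * H ∧ |ht y| ≤ 2 * H ∧ |ht z| ≤ 2 * H
    · rw [hω]
      simp only
      rw [if_pos ⟨⟨hx, hy, hz⟩, h⟩]
    · have e1 : ω x y z = 0 := by
        rw [hω]
        simp only
        rw [if_neg (fun h' => h h'.2)]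
      rw [e1]
      have b1 := abs_le.1 (htL x y hx hy (Or.inr hxy))
      have b2 := abs_le.1 (htL y z hy hz (Or.inr hyz))
      have b3 := abs_le.1 (htL x z hx hz (Or.inr hxz))
      have cases : (0 ≤ ht x ∧ 0 ≤ ht y ∧ 0 ≤ ht z) ∨ (ht x < 0 ∧ ht y < 0 ∧ ht z < 0) := by
        by_contra hc
        apply h
        simp only [abs_le]
        omega
      rcases cases with c | c
      · rw [hη]
        simp only
        rw [if_neg (by omega), if_neg (by omega), if_neg (by omega)]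
        simp
      · rw [hη]
        simp only
        rw [if_pos (by omega), if_pos (by omega), if_pos (by omega)]
        exact (ttri x y z (hLL ▸ hx) (hLL ▸ hy) (hLL ▸ hz) hxy hyz hxz).symm
  -- the set `Y`
  obtain ⟨Y, hY⟩ : ∃ Y : Set V, Y = L ∪ ((a ^ (M : ℤ)) '' (N : Set V)) ∪
    ((a ^ (-(M : ℤ))) '' (N : Set V)) := ⟨_, rfl⟩
  have LY : L ⊆ Y := by
    rw [hY]
    exact fun x hx => Or.inl (Or.inl hx)
  have NY1 : ((a ^ (M : ℤ)) '' (N : Set V)) ⊆ Y := by
    rw [hY]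
    exact fun x hx => Or.inl (Or.inr hx)
  have NY2 : ((a ^ (-(M : ℤ))) '' (N : Set V)) ⊆ Y := by
    rw [hY]
    exact fun x hx => Or.inr hx
  have outL : ∀ c ∈ Y, c ∉ L → ∀ p q r, X.G.Adj c p → ω p q r = 0 := by
    intro c hc hcL p q r hcp
    by_cases hp : p ∈ L
    · apply ωz'
      rw [hY] at hc
      rcases hc with (hc | ⟨n, hn, rfl⟩) | ⟨n, hn, rfl⟩
      · exact absurd hc hcL
      · exact key _ (Or.inl rfl) n hn p hp (Or.inr hcp)
      · exact key _ (Or.inr rfl) n hn p hp (Or.inr hcp)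
    · exact ωz p q r (fun h => hp h.1)
  have two : (2 : ZMod 2) = 0 := rfl
  have hco : Cocyc X.G Y ω := by
    refine ⟨ω12, ω23, ?_⟩
    intro x y z w hx hy hz hw hxy hxz hxw hyz hyw hzw
    by_cases lx : x ∈ L
    · by_cases ly : y ∈ L
      · by_cases lz : z ∈ L
        · by_cases lw : w ∈ L
          · rw [ωL x y z lx ly lz hxy hyz hxz, ωL x y w lx ly lw hxy hyw hxw,
              ωL x z w lx lz lw hxz hzw hxw, ωL y z w ly lz lw hyz hzw hyw]
            linear_combination (η x y + η y z + η x z + η y w + η x w + η z w) * two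
          · rw [ωz x y w (fun h => lw h.2.2), ωz x z w (fun h => lw h.2.2),
              ωz y z w (fun h => lw h.2.2), outL w hw lw x y z hxw.symm]
            simp
        · rw [ωz x y z (fun h => lz h.2.2), ωz x z w (fun h => lz h.2.1),
            ωz y z w (fun h => lz h.2.1), outL z hz lz x y w hxz.symm]
          simp
      · rw [ωz x y z (fun h => ly h.2.1), ωz x y w (fun h => ly h.2.1),
          ωz y z w (fun h => ly h.1), outL y hy ly x z w hxy.symm]
        simp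
    · rw [ωz x y z (fun h => lx h.1), ωz x y w (fun h => lx h.1),
        ωz x z w (fun h => lx h.1), outL x hx lx y z w hxy]
      simp
  -- translates of `m`
  have zW : ∀ (k : ℤ) {x y : V} {l : List V}, IsW X.G x y l →
      IsW X.G ((a ^ k) x) ((a ^ k) y) (l.map (a ^ k)) := fun k x y l hl =>
    isW_map (zadj aadj k) hl
  have mem_map : ∀ (k : ℤ) (l : List V), (∀ v ∈ l, v ∈ L) → ∀ v ∈ l.map (a ^ k), v ∈ L := by
    intro k l hl v hv
    obtain ⟨u, hu, rfl⟩ := List.mem_map.1 hv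
    exact (Linv k u).2 (hl u hu)
  have Nhom : ∀ (k : ℤ), (k = M ∨ k = -M) → ((a ^ k) '' (N : Set V)) ⊆ Y →
      Hom X.G Y ω (m.map (a ^ k)) [(a ^ k) y₀] 0 := by
    intro k hk hkY
    have t1 := (h3 V X.G (N : Set V) _).2.2.2.2.2.2.2.2.2 (a ^ k) (zadj aadj k) m [y₀] e0 hN
    obtain ⟨e1, he1⟩ := (h3 V X.G ((a ^ k) '' (N : Set V)) _).2.2.2.1 _ _ _ ω t1
    have e10 : e1 = 0 := by
      have := h5 V X.G ((a ^ k) '' (N : Set V)) (fun _ _ => 0) ω (fun _ _ => rfl) ?_ _ _ _ ?_ he1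
      · rw [this, sumE_zero, sumE_zero, add_zero]
      · rintro x y z ⟨n, hn, rfl⟩ _ _ _ _ _
        simp only [add_zero]
        by_cases hl : (a ^ k) n ∈ L
        · exact ωz' _ _ _ (key k hk n hn _ hl (Or.inl rfl))
        · exact ωz _ _ _ (fun h => hl h.1)
      · intro v hv
        obtain ⟨u, hu, rfl⟩ := List.mem_map.1 hv
        exact ⟨u, mN u hu, rfl⟩
    rw [e10] at he1
    exact (h3 V X.G ((a ^ k) '' (N : Set V)) ω).2.2.2.2.1 _ _ _ Y hkY he1
  have ann : ∀ j : ℤ, Hom X.G Y ω (cat (cat (cat (m.map (a ^ j)) (s₀.map (a ^ j)))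
      (m.map (a ^ (j + 1))).reverse) (s₀.map (a ^ j)).reverse) [(a ^ j) y₀]
      (sumE η (m.map (a ^ j)) + sumE η (m.map (a ^ (j + 1)))) := by
    intro j
    obtain ⟨-, x, hx, hx'⟩ := hsq
    have xy : x = y₀ := by
      obtain ⟨m₀, hm₀⟩ := isW_cons mW
      have := hx.first
      rw [hm₀] at this
      simpa [sq, cat] using this.symm
    subst xy
    have t1 := (h3 V X.G L _).2.2.2.2.2.2.2.2.2 (a ^ j) (zadj aadj j) _ _ _ hx'
    obtain ⟨e1, he1⟩ := (h3 V X.G _ _).2.2.2.1 _ _ _ ω t1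
    have imL : (a ^ j) '' L = L := by
      ext v
      constructor
      · rintro ⟨u, hu, rfl⟩
        exact (Linv j u).2 hu
      · intro hv
        refine ⟨(a ^ (-j)) v, (Linv (-j) v).2 hv, ?_⟩
        rw [← Equiv.Perm.mul_apply, ← zpow_add, add_neg_cancel, zpow_zero, Equiv.Perm.one_apply]
    rw [imL] at he1
    have aj : ∀ v, (a ^ j) (a v) = (a ^ (j + 1)) v := by
      intro v
      rw [zpow_add, zpow_one, Equiv.Perm.mul_apply]
    have eqn : (sq a m s₀ s₀).map (a ^ j) = cat (cat (cat (m.map (a ^ j)) (s₀.map (a ^ j)))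
        (m.map (a ^ (j + 1))).reverse) (s₀.map (a ^ j)).reverse := by
      have em : (m.map a).map (a ^ j) = m.map (a ^ (j + 1)) := by
        rw [List.map_map]
        exact List.map_congr_left (fun v _ => aj v)
      unfold sq
      rw [map_cat, map_cat, map_cat, List.map_reverse, List.map_reverse, em]
    rw [eqn] at he1
    have W1 := zW j mW
    have W2 : IsW X.G ((a ^ j) x) ((a ^ (j + 1)) x) (s₀.map (a ^ j)) := by
      have := zW j hs₀
      rwa [aj] at this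
    have W3 := zW (j + 1) mW
    have e2 := h5 V X.G L η ω ηsym ωL _ _ _ ?_ he1
    · rw [sumE_cat η (isW_cat (isW_cat W1 W2) (isW_reverse W3)) (isW_reverse W2),
        sumE_cat η (isW_cat W1 W2) (isW_reverse W3), sumE_cat η W1 W2, sumE_reverse η ηsym,
        sumE_reverse η ηsym] at e2
      have e3 : e1 = sumE η (m.map (a ^ j)) + sumE η (m.map (a ^ (j + 1))) := by
        rw [e2]
        have : sumE η (List.map (a ^ j) [x]) = 0 := rfl
        rw [this]
        linear_combination (sumE η (s₀.map (a ^ j))) * two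
      rw [e3] at he1
      exact (h3 V X.G L ω).2.2.2.2.1 _ _ _ Y LY he1
    · rw [← eqn]
      intro v hv
      obtain ⟨u, hu, rfl⟩ := List.mem_map.1 hv
      refine (Linv j u).2 ?_
      have a1 : ∀ v ∈ m.map a, v ∈ L := by
        intro v hv
        obtain ⟨u, hu, rfl⟩ := List.mem_map.1 hv
        have := (Linv 1 u).2 (mL u hu)
        rwa [zpow_one] at this
      unfold sq at hu
      rcases mem_cat hu with hu | hu
      · rcases mem_cat hu with hu | hu
        · rcases mem_cat hu with hu | hu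
          · exact mL u hu
          · exact sL u hu
        · exact a1 u (List.mem_reverse.1 hu)
      · exact sL u (List.mem_reverse.1 hu)
  have ind : ∀ k : ℕ, Hom X.G Y ω (m.map (a ^ ((M : ℤ) - k))) [(a ^ ((M : ℤ) - k)) y₀]
      (sumE η (m.map (a ^ ((M : ℤ) - k))) + sumE η (m.map (a ^ (M : ℤ)))) := by
    intro k
    induction k with
    | zero =>
      have e1 : sumE η (m.map (a ^ ((M : ℤ) - (0 : ℕ)))) + sumE η (m.map (a ^ (M : ℤ))) = 0 := by
        simp only [Nat.cast_zero, sub_zero]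
        linear_combination (sumE η (m.map (a ^ (M : ℤ)))) * two
      rw [e1]
      simp only [Nat.cast_zero, sub_zero]
      exact Nhom _ (Or.inl rfl) NY1
    | succ k ih =>
      obtain ⟨j, hj⟩ : ∃ j : ℤ, j = (M : ℤ) - ((k + 1 : ℕ) : ℤ) := ⟨_, rfl⟩
      have hj1 : (M : ℤ) - k = j + 1 := by
        rw [hj]
        push_cast
        ring
      rw [← hj]
      rw [hj1] at ih
      have W1 := zW j mW
      have W2 : IsW X.G ((a ^ j) y₀) ((a ^ (j + 1)) y₀) (s₀.map (a ^ j)) := by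
        have := zW j hs₀
        rwa [← Equiv.Perm.mul_apply, ← zpow_add_one] at this
      have W3 := zW (j + 1) mW
      have := hom_step h3 W1 W3 W2 (fun v hv => LY (mem_map j m mL v hv))
        (fun v hv => LY (mem_map (j + 1) m mL v hv)) (fun v hv => LY (mem_map j s₀ sL v hv))
        (ann j) ih
      have e1 : sumE η (m.map (a ^ j)) + sumE η (m.map (a ^ (j + 1))) +
          (sumE η (m.map (a ^ (j + 1))) + sumE η (m.map (a ^ (M : ℤ)))) =
          sumE η (m.map (a ^ j)) + sumE η (m.map (a ^ (M : ℤ))) := by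
        linear_combination (sumE η (m.map (a ^ (j + 1)))) * two
      rwa [e1] at this
  have hmh : ∀ v ∈ m, |ht v| ≤ H₁ := fun v hv => hH₁ v (mL v hv) v (mN v hv) (Or.inl rfl)
  have v1 : sumE η (m.map (a ^ (M : ℤ))) = 0 := by
    rw [sumE_congr η (fun _ _ => 0), sumE_zero]
    intro x hx y hy
    obtain ⟨u, hu, rfl⟩ := List.mem_map.1 hx
    have b1 := abs_le.1 (hmh u hu)
    have b2 := htp M u (mL u hu)
    rw [hη]
    simp only
    rw [if_neg (by omega)]
  have v2 : sumE η (m.map (a ^ (-(M : ℤ)))) = 1 := by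
    rw [sumE_congr η (theta L₀ L₁ L₂), sumE_map _ _ (tinv _), hm]
    · refine tpar y₀ y₁ y₂ π₀ π₁ π₂ hπ₀ hπ₁ hπ₂ ?_ ?_ ?_
      · intro v hv
        rw [hL₀]
        exact ⟨0, by simpa using π₀L v hv⟩
      · intro v hv
        rw [hL₁]
        exact ⟨0, by simpa using π₁L v hv⟩
      · intro v hv
        rw [hL₂]
        exact ⟨0, by simpa using π₂L v hv⟩
    · intro x hx y hy
      obtain ⟨u, hu, rfl⟩ := List.mem_map.1 hx
      obtain ⟨w, hw, rfl⟩ := List.mem_map.1 hy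
      have b1 := abs_le.1 (hmh u hu)
      have b2 := htp (-(M : ℤ)) u (mL u hu)
      have b3 := abs_le.1 (hmh w hw)
      have b4 := htp (-(M : ℤ)) w (mL w hw)
      rw [hη]
      simp only
      rw [if_pos (by omega)]
  have f1 := ind (2 * M)
  have hMM : (M : ℤ) - ((2 * M : ℕ) : ℤ) = -(M : ℤ) := by
    push_cast
    ring
  rw [hMM, v1, v2, add_zero] at f1
  have f2 := Nhom (-(M : ℤ)) (Or.inr rfl) NY2
  have f3 := ((h3 V X.G Y ω).2.2.1 _ _ _ (fun v hv => LY (mem_map _ m mL v hv)) f1).2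
  have f4 := (h3 V X.G Y ω).1 _ _ _ _ _ f3 f2
  have f5 := h1 V X a hMS.metric hMS.large hF Y ω hco _ _ (LY ((Linv _ _).2 y₀L)) f4
  rw [add_zero] at f5
  exact one_ne_zero f5

end MSG.H84
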